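import Pool.Agent.Helper37.DG.Stmts

set_option autoImplicit false

/-!
FOU: finite Fourier analysis modulo a product of distinct primes (project DG).
-/

namespace Pool.Agent.Helper37.DG

open Finset
open scoped Classical
open scoped ComplexConjugate

/-- the additive character `k ↦ e(k / D)` -/
noncomputable def fou_e (D : ℕ) (k : ℤ) : ℂ := Complex.exp (2 * Real.pi * Complex.I * ((k : ℂ) / (D : ℂ)))

theorem fou_e_add (D : ℕ) (a b : ℤ) : fou_e D (a + b) = fou_e D a * fou_e D b := by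
  unfold fou_e
  rw [← Complex.exp_add]
  congr 1
  push_cast
  ring

theorem fou_e_mul (D : ℕ) (D0 : D ≠ 0) (k : ℤ) : fou_e D (D * k) = 1 := by
  unfold fou_e
  have h : (D : ℂ) ≠ 0 := by exact_mod_cast D0
  have h1 : 2 * Real.pi * Complex.I * (((((D : ℤ) * k : ℤ)) : ℂ) / (D : ℂ)) =
      (k : ℂ) * (2 * Real.pi * Complex.I) := by
    push_cast
    field_simp
  rw [h1]
  exact Complex.exp_int_mul_two_pi_mul_I k

theorem fou_e_zero (D : ℕ) : fou_e D 0 = 1 := by
  unfold fou_e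
  simp

theorem fou_e_congr (D : ℕ) (D0 : D ≠ 0) (a b : ℤ) (h : (D : ℤ) ∣ a - b) :
    fou_e D a = fou_e D b := by
  obtain ⟨k, hk⟩ := h
  have h1 : a = D * k + b := by linarith
  rw [h1, fou_e_add, fou_e_mul D D0, one_mul]

theorem fou_e_pow (D : ℕ) (k : ℤ) (n : ℕ) : fou_e D k ^ n = fou_e D (n * k) := by
  induction n with
  | zero => simp [fou_e_zero]
  | succ n ih =>
    rw [pow_succ, ih, ← fou_e_add]
    congr 1
    push_cast
    ring

theorem fou_e_conj (D : ℕ) (k : ℤ) : conj (fou_e D k) = fou_e D (-k) := by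
  unfold fou_e
  rw [← Complex.exp_conj]
  congr 1
  simp only [map_mul, map_div₀, Complex.conj_I, Complex.conj_ofReal, map_ofNat, map_intCast,
    map_natCast]
  push_cast
  ring

theorem fou_e_eq_one (D : ℕ) (D0 : D ≠ 0) (k : ℤ) (h : fou_e D k = 1) : (D : ℤ) ∣ k := by
  unfold fou_e at h
  rw [Complex.exp_eq_one_iff] at h
  obtain ⟨n, hn⟩ := h
  have h1 : (D : ℂ) ≠ 0 := by exact_mod_cast D0
  have h2 : (2 * Real.pi * Complex.I : ℂ) ≠ 0 := Complex.two_pi_I_ne_zero
  have h3 : (k : ℂ) / (D : ℂ) = (n : ℂ) := by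
    have h4 : (2 * Real.pi * Complex.I : ℂ) * ((k : ℂ) / (D : ℂ)) =
        (2 * Real.pi * Complex.I : ℂ) * (n : ℂ) := by
      rw [hn]
      ring
    exact mul_left_cancel₀ h2 h4
  rw [div_eq_iff h1] at h3
  refine ⟨n, ?_⟩
  have h5 : ((k : ℤ) : ℂ) = (((D : ℤ) * n : ℤ) : ℂ) := by
    rw [h3]
    push_cast
    ring
  exact_mod_cast h5

/-- orthogonality -/
theorem fou_orth (D : ℕ) (D0 : D ≠ 0) (k : ℤ) :
    ∑ b ∈ Finset.range D, fou_e D (b * k) = if (D : ℤ) ∣ k then (D : ℂ) else 0 := by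
  have h1 : ∀ b ∈ Finset.range D, fou_e D (b * k) = fou_e D k ^ b := by
    intro b _
    rw [fou_e_pow]
  rw [Finset.sum_congr rfl h1]
  split_ifs with h
  · have h2 : fou_e D k = 1 := by
      have := fou_e_congr D D0 k 0 (by simpa using h)
      rw [this, fou_e_zero]
    rw [h2]
    simp
  · have h2 : fou_e D k ≠ 1 := fun h3 => h (fou_e_eq_one D D0 k h3)
    rw [geom_sum_eq h2, fou_e_pow, fou_e_mul D D0, sub_self, zero_div]

/-- Parseval -/
theorem fou_parseval (D : ℕ) (D0 : D ≠ 0) (P : Finset (ℤ × ℤ)) (L : ℤ × ℤ → ℤ) :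
    ∑ b ∈ Finset.range D, ‖∑ v ∈ P, fou_e D (b * L v)‖ ^ 2 =
      (D : ℝ) * ((P ×ˢ P).filter (fun a => (D : ℤ) ∣ L a.1 - L a.2)).card := by
  have h1 : ((∑ b ∈ Finset.range D, ‖∑ v ∈ P, fou_e D (b * L v)‖ ^ 2 : ℝ) : ℂ) =
      (((D : ℝ) * ((P ×ˢ P).filter (fun a => (D : ℤ) ∣ L a.1 - L a.2)).card : ℝ) : ℂ) := by
    push_cast
    have h2 : ∀ b ∈ Finset.range D, ((‖∑ v ∈ P, fou_e D (b * L v)‖ : ℝ) : ℂ) ^ 2 =
        ∑ a ∈ P ×ˢ P, fou_e D (b * (L a.1 - L a.2)) := by
      intro b _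
      rw [← Complex.mul_conj', map_sum, Finset.sum_mul_sum, Finset.sum_product]
      refine Finset.sum_congr rfl fun v _ => Finset.sum_congr rfl fun w _ => ?_
      rw [fou_e_conj, ← fou_e_add]
      congr 1
      ring
    rw [Finset.sum_congr rfl h2, Finset.sum_comm,
      Finset.sum_congr rfl (fun a _ => fou_orth D D0 (L a.1 - L a.2)), ← Finset.sum_filter,
      Finset.sum_const, nsmul_eq_mul, mul_comm]
  exact_mod_cast h1

theorem fou_prod_dvd (U : Finset ℕ) (hU : ∀ p ∈ U, p.Prime) (z : ℤ)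
    (h : ∀ p ∈ U, (p : ℤ) ∣ z) : ((pr U : ℕ) : ℤ) ∣ z := by
  rw [Int.natCast_dvd]
  unfold pr
  refine Finset.prod_primes_dvd _ (fun p hp => (hU p hp).prime) fun p hp => ?_
  have := h p hp
  rwa [Int.natCast_dvd] at this

theorem fou_dvd_iff (U : Finset ℕ) (hU : ∀ p ∈ U, p.Prime) (z : ℤ) :
    ((pr U : ℕ) : ℤ) ∣ z ↔ ∀ p ∈ U, (p : ℤ) ∣ z := by
  constructor
  · intro h p hp
    have h1 : p ∣ pr U := Finset.dvd_prod_of_mem (fun p : ℕ => p) hp
    exact (Int.natCast_dvd_natCast.2 h1).trans h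
  · exact fou_prod_dvd U hU z

theorem fou_pr_pos (U : Finset ℕ) (hU : ∀ p ∈ U, p.Prime) : 0 < pr U :=
  Finset.prod_pos fun p hp => (hU p hp).pos

theorem fou_pr_split (T U : Finset ℕ) (h : U ⊆ T) : pr T = pr U * pr (T \ U) := by
  unfold pr
  rw [mul_comm]
  exact (Finset.prod_sdiff h).symm

/-- the fibre over `U` -/
theorem fou_fibre (T U : Finset ℕ) (hT : ∀ p ∈ T, p.Prime) (h : U ⊆ T) (f : ℕ → ℝ) :
    ∑ b ∈ (Finset.range (pr T)).filter (fun b => T.filter (fun p => ¬ p ∣ b) = U), f b =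
    ∑ a ∈ (Finset.range (pr U)).filter (fun a => a.Coprime (pr U)), f (a * pr (T \ U)) := by
  have hU : ∀ p ∈ U, p.Prime := fun p hp => hT p (h hp)
  have hV : ∀ p ∈ T \ U, p.Prime := fun p hp => hT p (Finset.mem_sdiff.1 hp).1
  have hV0 := fou_pr_pos (T \ U) hV
  symm
  refine Finset.sum_nbij (fun a => a * pr (T \ U)) ?_ ?_ ?_ ?_
  · intro a ha
    rw [Finset.mem_filter, Finset.mem_range] at ha ⊢
    refine ⟨?_, ?_⟩
    · rw [fou_pr_split T U h]
      exact Nat.mul_lt_mul_of_pos_right ha.1 hV0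
    · ext p
      rw [Finset.mem_filter]
      constructor
      · rintro ⟨hp, hpa⟩
        by_contra hpU
        apply hpa
        have : p ∣ pr (T \ U) :=
          Finset.dvd_prod_of_mem (fun p : ℕ => p) (Finset.mem_sdiff.2 ⟨hp, hpU⟩)
        exact this.mul_left a
      · intro hp
        refine ⟨h hp, fun hpa => ?_⟩
        rcases (hU p hp).dvd_mul.1 hpa with h1 | h1
        · have h2 : p ∣ pr U := Finset.dvd_prod_of_mem (fun p : ℕ => p) hp
          have h3 := Nat.dvd_gcd h1 h2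
          have h4 : Nat.gcd a (pr U) = 1 := ha.2
          rw [h4] at h3
          exact (hU p hp).one_lt.ne' (Nat.dvd_one.1 h3)
        · unfold pr at h1
          obtain ⟨q, hq, hpq⟩ := ((hU p hp).prime.dvd_finsetProd_iff _).1 h1
          have h5 : p = q := (Nat.prime_dvd_prime_iff_eq (hU p hp) (hV q hq)).1 hpq
          subst h5
          exact (Finset.mem_sdiff.1 hq).2 hp
  · intro a _ b _ hab
    exact Nat.eq_of_mul_eq_mul_right hV0 hab
  · intro b hb
    rw [Finset.mem_coe, Finset.mem_filter, Finset.mem_range] at hb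
    have h1 : pr (T \ U) ∣ b := by
      unfold pr
      refine Finset.prod_primes_dvd _ (fun p hp => (hV p hp).prime) fun p hp => ?_
      by_contra hpb
      have hm := Finset.mem_sdiff.1 hp
      apply hm.2
      rw [← hb.2]
      exact Finset.mem_filter.2 ⟨hm.1, hpb⟩
    obtain ⟨a, ha⟩ := h1
    refine ⟨a, ?_, ?_⟩
    · rw [Finset.mem_coe, Finset.mem_filter, Finset.mem_range]
      constructor
      · have h2 := hb.1
        rw [fou_pr_split T U h, ha, mul_comm] at h2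
        exact lt_of_mul_lt_mul_right h2 hV0.le
      · unfold pr
        refine Nat.Coprime.prod_right fun p hp => ?_
        rw [Nat.coprime_comm, (hU p hp).coprime_iff_not_dvd]
        intro hpa
        rw [← hb.2] at hp
        apply (Finset.mem_filter.1 hp).2
        rw [ha]
        exact hpa.mul_left _
    · change a * pr (T \ U) = b
      rw [ha, mul_comm]
  · intro a _
    rfl

theorem fou_es (P : Finset (ℤ × ℤ)) (r : ℤ) (a q : ℕ) :
    es P r a q = ∑ v ∈ P, fou_e q (a * (v.1 + r * v.2)) := by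
  unfold es fou_e
  refine Finset.sum_congr rfl fun v _ => ?_
  congr 1
  push_cast
  ring

/-- the value on the fibre -/
theorem fou_value (T U : Finset ℕ) (hT : ∀ p ∈ T, p.Prime) (h : U ⊆ T) (P : Finset (ℤ × ℤ))
    (r s : ℤ) (hrs : ((pr U : ℕ) : ℤ) ∣ r - s) (a : ℕ) :
    es P r (a * pr (T \ U)) (pr T) = es P s a (pr U) := by
  have hU : ∀ p ∈ U, p.Prime := fun p hp => hT p (h hp)
  have hV : ∀ p ∈ T \ U, p.Prime := fun p hp => hT p (Finset.mem_sdiff.1 hp).1
  have hV0 := fou_pr_pos (T \ U) hV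
  have hU0 := fou_pr_pos U hU
  rw [fou_es, fou_es]
  refine Finset.sum_congr rfl fun v _ => ?_
  have h1 : fou_e (pr T) ((((a * pr (T \ U) : ℕ)) : ℤ) * (v.1 + r * v.2)) =
      fou_e (pr U) (a * (v.1 + r * v.2)) := by
    unfold fou_e
    congr 2
    have h2 : (pr (T \ U) : ℂ) ≠ 0 := by exact_mod_cast hV0.ne'
    have h3 : (pr U : ℂ) ≠ 0 := by exact_mod_cast hU0.ne'
    rw [fou_pr_split T U h]
    push_cast
    field_simp
  rw [h1]
  refine fou_e_congr _ hU0.ne' _ _ ?_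
  have h4 : (a : ℤ) * (v.1 + r * v.2) - a * (v.1 + s * v.2) = (r - s) * (a * v.2) := by ring
  rw [h4]
  exact hrs.mul_right _

theorem st_FOU : ST_FOU := by
  intro j P A R hA hR T hT
  have hTA := Finset.mem_powerset.1 hT
  have hTp : ∀ p ∈ T, p.Prime := fun p hp => hA p (hTA hp)
  have hT0 := fou_pr_pos T hTp
  -- orthogonality
  have h1 := fou_parseval (pr T) hT0.ne' P (fun v => v.1 + R T * v.2)
  have h2 : (P ×ˢ P).filter (fun a => ((pr T : ℕ) : ℤ) ∣
      (fun v : ℤ × ℤ => v.1 + R T * v.2) a.1 - (fun v : ℤ × ℤ => v.1 + R T * v.2) a.2) =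
      (P ×ˢ P).filter (fun a => ∀ p ∈ T, hit j p (a.1 - a.2)) := by
    refine Finset.filter_congr fun a _ => ?_
    rw [fou_dvd_iff T hTp]
    refine forall₂_congr fun p hp => ?_
    unfold hit
    have h3 : (p : ℤ) ∣ R T - j p := hR T hT p hp
    have h4 : (fun v : ℤ × ℤ => v.1 + R T * v.2) a.1 - (fun v : ℤ × ℤ => v.1 + R T * v.2) a.2 =
        ((a.1 - a.2).1 + j p * (a.1 - a.2).2) + (R T - j p) * (a.1 - a.2).2 := by
      simp only [Prod.fst_sub, Prod.snd_sub]
      ring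
    rw [h4]
    exact Int.dvd_add_left (h3.mul_right _)
  rw [h2] at h1
  rw [← h1]
  -- grouping
  have h5 : ∀ b ∈ Finset.range (pr T), T.filter (fun p => ¬ p ∣ b) ∈ T.powerset :=
    fun b _ => Finset.mem_powerset.2 (Finset.filter_subset _ _)
  rw [← Finset.sum_fiberwise_of_maps_to h5]
  refine Finset.sum_congr rfl fun U hU => ?_
  have hUT := Finset.mem_powerset.1 hU
  rw [fou_fibre T U hTp hUT]
  unfold en
  refine Finset.sum_congr rfl fun a _ => ?_
  have h6 : ((pr U : ℕ) : ℤ) ∣ R T - R U := by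
    refine fou_prod_dvd U (fun p hp => hTp p (hUT hp)) _ fun p hp => ?_
    have h7 : (p : ℤ) ∣ R T - j p := hR T hT p (hUT hp)
    have h8 : (p : ℤ) ∣ R U - j p := hR U (Finset.mem_powerset.2 (hUT.trans hTA)) p hp
    have h9 : R T - R U = (R T - j p) - (R U - j p) := by ring
    rw [h9]
    exact dvd_sub h7 h8
  rw [← fou_value T U hTp hUT P (R T) (R U) h6 a, fou_es]

end Pool.Agent.Helper37.DG
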